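import Mathlib

/-!
A product of two strong d-spaces need not be a strong d-space.

The factors are the chain `omega + 1` with its Scott topology and a countable poset of height two
(two incomparable bottom points below a countable antichain) with its Alexandrov topology.
-/

namespace Pool.Agent.Results.MP_e2e219_gt.ProductNotStrongD

/-- The specialization order of a space: `x ≤ y` iff `x` lies in the closure of `{y}`. -/
def SpecLE {X : Type*} [TopologicalSpace X] (x y : X) : Prop := x ∈ closure ({y} : Set X)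

/-- The principal upper set `↑x` for the specialization order. -/
def up {X : Type*} [TopologicalSpace X] (x : X) : Set X := {y | SpecLE x y}

/-- `D` is directed: nonempty, and any two elements of `D` have an upper bound in `D`. -/
def IsDir {X : Type*} [TopologicalSpace X] (D : Set X) : Prop :=
  D.Nonempty ∧ ∀ a ∈ D, ∀ b ∈ D, ∃ c ∈ D, SpecLE a c ∧ SpecLE b c

/-- The strong d-space condition (imposed on T0 spaces): for every directed `D`, every point `x`
and every open `U`, if the intersection of all `↑d` (`d ∈ D`) with `↑x` lies in `U`, then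
`↑d ∩ ↑x` lies in `U` for some `d ∈ D`. -/
def IsStrongD (X : Type*) [TopologicalSpace X] : Prop :=
  ∀ D : Set X, IsDir D → ∀ (x : X) (U : Set X), IsOpen U →
    (⋂ d ∈ D, up d) ∩ up x ⊆ U → ∃ d ∈ D, up d ∩ up x ⊆ U

lemma specLE_iff {X : Type*} [TopologicalSpace X] (x y : X) :
    SpecLE x y ↔ ∀ s : Set X, IsOpen s → x ∈ s → y ∈ s := by
  unfold SpecLE
  rw [← specializes_iff_mem_closure, specializes_iff_forall_open]

lemma specLE_refl {X : Type*} [TopologicalSpace X] (x : X) : SpecLE x x := by
  rw [specLE_iff]; intro s _ h; exact h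

/-- If every directed set has a largest element then the space is a strong d-space. -/
lemma strong_of_max {X : Type*} [TopologicalSpace X]
    (h : ∀ D : Set X, IsDir D → ∃ m ∈ D, ∀ d ∈ D, SpecLE d m) : IsStrongD X := by
  intro D hD x U _ hU
  obtain ⟨m, hm, hmax⟩ := h D hD
  refine ⟨m, hm, ?_⟩
  rintro y ⟨hy1, hy2⟩
  apply hU
  refine ⟨?_, hy2⟩
  simp only [Set.mem_iInter]
  intro d hd
  have h1 := (specLE_iff d m).1 (hmax d hd)
  have h2 := (specLE_iff m y).1 hy1
  exact (specLE_iff d y).2 fun s hs hds => h2 s hs (h1 s hs hds)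

/-! ### The chain `omega + 1` with the Scott topology -/

/-- The Scott topology on `omega + 1` (as `WithTop ℕ`). -/
@[instance_reducible] def topC : TopologicalSpace (WithTop ℕ) where
  IsOpen U := IsUpperSet U ∧ (⊤ ∈ U → ∃ n : ℕ, (n : WithTop ℕ) ∈ U)
  isOpen_univ := ⟨isUpperSet_univ, fun _ => ⟨0, trivial⟩⟩
  isOpen_inter := by
    rintro s t ⟨hs, hs'⟩ ⟨ht, ht'⟩
    refine ⟨hs.inter ht, ?_⟩
    rintro ⟨h1, h2⟩
    obtain ⟨m, hm⟩ := hs' h1
    obtain ⟨n, hn⟩ := ht' h2
    refine ⟨max m n, hs ?_ hm, ht ?_ hn⟩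
    · exact WithTop.coe_le_coe.2 (le_max_left _ _)
    · exact WithTop.coe_le_coe.2 (le_max_right _ _)
  isOpen_sUnion := by
    intro S hS
    refine ⟨isUpperSet_sUnion fun s hs => (hS s hs).1, ?_⟩
    rintro ⟨s, hs, hts⟩
    obtain ⟨n, hn⟩ := (hS s hs).2 hts
    exact ⟨n, s, hs, hn⟩

/-! ### The height two poset with the Alexandrov topology -/

/-- The Alexandrov topology of the poset `{b, y} ∪ {k_n}` with `b, y < k_n` for all `n`;
`b = inl false`, `y = inl true`, `k_n = inr n`. -/
@[instance_reducible] def topY : TopologicalSpace (Bool ⊕ ℕ) where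
  IsOpen U := ∀ i : Bool, Sum.inl i ∈ U → ∀ n : ℕ, Sum.inr n ∈ U
  isOpen_univ := fun _ _ _ => trivial
  isOpen_inter := fun s t hs ht i hi n => ⟨hs i hi.1 n, ht i hi.2 n⟩
  isOpen_sUnion := by
    rintro S hS i ⟨s, hs, his⟩ n
    exact ⟨s, hs, hS s hs i his n⟩

lemma specC (x y : WithTop ℕ) : @SpecLE _ topC x y ↔ x ≤ y := by
  let _ := topC
  rw [specLE_iff]
  constructor
  · intro h
    by_contra hxy
    rw [not_le] at hxy
    -- the set of points not below `y` is open and contains `x`
    have hopen : @IsOpen _ topC {z | ¬ z ≤ y} := by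
      refine ⟨?_, ?_⟩
      · intro a b hab ha hb
        exact ha (hab.trans hb)
      · intro _
        have hy : y ≠ ⊤ := (lt_of_lt_of_le hxy le_top).ne
        obtain ⟨m, rfl⟩ := WithTop.ne_top_iff_exists.1 hy
        refine ⟨m + 1, ?_⟩
        intro hle
        have : m + 1 ≤ m := WithTop.coe_le_coe.1 hle
        omega
    exact (h _ hopen (not_le.2 hxy)) le_rfl
  · intro hxy s hs hx
    exact hs.1 hxy hx

lemma t0C : @T0Space (WithTop ℕ) topC := by
  let _ := topC
  refine ⟨fun x y hxy => ?_⟩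
  have h1 : x ≤ y := (specC x y).1 (specializes_iff_mem_closure.1 hxy.specializes')
  have h2 : y ≤ x := (specC y x).1 (specializes_iff_mem_closure.1 hxy.specializes)
  exact le_antisymm h1 h2

lemma strongC : @IsStrongD (WithTop ℕ) topC := by
  let _ := topC
  · intro D hD x U hU hsub
    by_cases hmax : ∃ m ∈ D, ∀ d ∈ D, d ≤ m
    · obtain ⟨m, hm, hmm⟩ := hmax
      refine ⟨m, hm, ?_⟩
      rintro y ⟨hy1, hy2⟩
      apply hsub
      refine ⟨?_, hy2⟩
      simp only [Set.mem_iInter]
      intro d hd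
      exact (specC d y).2 ((hmm d hd).trans ((specC m y).1 hy1))
    · push Not at hmax
      -- `⊤` lies in `U`
      have htop : (⊤ : WithTop ℕ) ∈ U := by
        apply hsub
        refine ⟨?_, (specC _ _).2 le_top⟩
        simp only [Set.mem_iInter]
        intro d _
        exact (specC d ⊤).2 le_top
      obtain ⟨n, hn⟩ := hU.2 htop
      -- an element of `D` above `n`
      have key : ∀ k : ℕ, ∃ d ∈ D, (k : WithTop ℕ) ≤ d := by
        intro k
        induction k with
        | zero =>
          obtain ⟨d, hd⟩ := hD.1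
          exact ⟨d, hd, by simp⟩
        | succ k ih =>
          obtain ⟨d, hd, hkd⟩ := ih
          obtain ⟨d', hd', hlt⟩ := hmax d hd
          refine ⟨d', hd', ?_⟩
          have h3 : (k : WithTop ℕ) < d' := lt_of_le_of_lt hkd hlt
          induction d' using WithTop.recTopCoe with
          | top => exact le_top
          | coe e => exact WithTop.coe_le_coe.2 (WithTop.coe_lt_coe.1 h3)
      obtain ⟨d, hd, hnd⟩ := key n
      refine ⟨d, hd, ?_⟩
      rintro y ⟨hy1, _⟩
      exact hU.1 (hnd.trans ((specC d y).1 hy1)) hn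

lemma specY (x y : Bool ⊕ ℕ) :
    @SpecLE _ topY x y ↔ x = y ∨ ((∃ i, x = Sum.inl i) ∧ ∃ n, y = Sum.inr n) := by
  let _ := topY
  rw [specLE_iff]
  constructor
  · intro h
    rcases x with i | m
    · rcases y with j | n
      · left
        have hopen : @IsOpen _ topY {z | z = Sum.inl i ∨ ∃ n, z = Sum.inr n} := by
          intro k _ n
          exact Or.inr ⟨n, rfl⟩
        rcases h _ hopen (Or.inl rfl) with h1 | ⟨n, h1⟩
        · exact h1.symm
        · cases h1
      · right
        exact ⟨⟨i, rfl⟩, ⟨n, rfl⟩⟩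
    · left
      have hopen : @IsOpen _ topY {z | z = Sum.inr m} := by
        intro k hk n
        cases hk
      exact (h _ hopen rfl).symm
  · rintro (rfl | ⟨⟨i, rfl⟩, ⟨n, rfl⟩⟩) s hs hx
    · exact hx
    · exact hs i hx n

lemma t0Y : @T0Space (Bool ⊕ ℕ) topY := by
  let _ := topY
  refine ⟨fun x y hxy => ?_⟩
  have h1 := (specY x y).1 (specializes_iff_mem_closure.1 hxy.specializes')
  have h2 := (specY y x).1 (specializes_iff_mem_closure.1 hxy.specializes)
  rcases h1 with h1 | ⟨_, ⟨n, h1⟩⟩
  · exact h1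
  · rcases h2 with h2 | ⟨⟨i, h2⟩, _⟩
    · exact h2.symm
    · rw [h1] at h2; cases h2

lemma strongY : @IsStrongD (Bool ⊕ ℕ) topY := by
  let _ := topY
  apply strong_of_max
  · intro D hD
    obtain ⟨⟨d0, hd0⟩, hdir⟩ := hD
    by_cases hr : ∃ n, Sum.inr n ∈ D
    · obtain ⟨n, hn⟩ := hr
      refine ⟨Sum.inr n, hn, ?_⟩
      intro d hd
      obtain ⟨c, _, hdc, hnc⟩ := hdir d hd _ hn
      have : Sum.inr n = c := by
        rcases (specY _ _).1 hnc with h | ⟨⟨i, hi⟩, _⟩
        · exact h
        · cases hi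
      rw [this]; exact hdc
    · refine ⟨d0, hd0, ?_⟩
      intro d hd
      obtain ⟨c, hc, hdc, h0c⟩ := hdir d hd _ hd0
      have hcl : ∀ m, c ≠ Sum.inr m := by
        rintro m rfl
        exact hr ⟨m, hc⟩
      have h1 : d = c := by
        rcases (specY _ _).1 hdc with h | ⟨_, ⟨m, hm⟩⟩
        · exact h
        · exact absurd hm (hcl m)
      have h2 : d0 = c := by
        rcases (specY _ _).1 h0c with h | ⟨_, ⟨m, hm⟩⟩
        · exact h
        · exact absurd hm (hcl m)
      rw [h1, ← h2]; exact specLE_refl _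

/-- The two underlying sets. -/
def Fam : Bool → Type
  | false => WithTop ℕ
  | true => Bool ⊕ ℕ

/-- The two topologies. -/
@[instance_reducible] def famTop : ∀ i : Bool, TopologicalSpace (Fam i)
  | false => topC
  | true => topY

/-- There is a family of two countable T0 strong d-spaces (indexed by `Bool`) whose product is not
a strong d-space. -/
theorem result : ∃ (X : Bool → Type) (_ : ∀ i, TopologicalSpace (X i)),
    (∀ i, Countable (X i)) ∧ (∀ i, T0Space (X i)) ∧ (∀ i, IsStrongD (X i)) ∧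
      ¬ IsStrongD (∀ i, X i) := by
  refine ⟨Fam, famTop, ?_, ?_, ?_, ?_⟩
  · rintro (_ | _)
    · exact (inferInstance : Countable (WithTop ℕ))
    · exact (inferInstance : Countable (Bool ⊕ ℕ))
  · rintro (_ | _)
    · exact t0C
    · exact t0Y
  · rintro (_ | _)
    · exact strongC
    · exact strongY
  · let _ := famTop
    intro h
    -- pairs as functions on `Bool`
    let mk : WithTop ℕ → (Bool ⊕ ℕ) → (∀ i, Fam i) := fun a b i =>
      match i with
      | false => a
      | true => b
    have hspec : ∀ f g : (∀ i, Fam i), SpecLE f g ↔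
        (@SpecLE (WithTop ℕ) topC (f false) (g false)) ∧
        (@SpecLE (Bool ⊕ ℕ) topY (f true) (g true)) := by
      intro f g
      unfold SpecLE
      rw [← specializes_iff_mem_closure, specializes_pi]
      constructor
      · intro hh
        exact ⟨(@specializes_iff_mem_closure _ topC _ _).1 (hh false),
          (@specializes_iff_mem_closure _ topY _ _).1 (hh true)⟩
      · rintro ⟨h1, h2⟩ (_ | _)
        · exact (@specializes_iff_mem_closure _ topC _ _).2 h1
        · exact (@specializes_iff_mem_closure _ topY _ _).2 h2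
    -- the directed set, the point and the open set
    let D : Set (∀ i, Fam i) := {f | ∃ n : ℕ, f = mk (n : WithTop ℕ) (Sum.inl false)}
    let x : ∀ i, Fam i := mk 0 (Sum.inl true)
    let A : ℕ → Set (WithTop ℕ) := fun n => {z | (n : WithTop ℕ) ≤ z}
    let B : ℕ → Set (Bool ⊕ ℕ) := fun n => {z | z = Sum.inr n}
    let U : Set (∀ i, Fam i) := ⋃ n : ℕ, {f | f false ∈ A n ∧ f true ∈ B n}
    have hU : IsOpen U := by
      apply isOpen_iUnion
      intro n
      have hA : @IsOpen _ topC (A n) := by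
        refine ⟨?_, fun _ => ⟨n, le_refl (n : WithTop ℕ)⟩⟩
        intro a b hab ha
        exact le_trans ha hab
      have hB : @IsOpen _ topY (B n) := by
        intro k hk _
        cases hk
      have e : {f : (∀ i, Fam i) | f false ∈ A n ∧ f true ∈ B n} =
          ((fun f : (∀ i, Fam i) => f false) ⁻¹' A n) ∩
            ((fun f : (∀ i, Fam i) => f true) ⁻¹' B n) := rfl
      rw [e]
      apply IsOpen.inter
      · exact (continuous_apply false).isOpen_preimage _ hA
      · exact (continuous_apply true).isOpen_preimage _ hB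
    have hD : IsDir D := by
      refine ⟨⟨mk 0 (Sum.inl false), 0, rfl⟩, ?_⟩
      rintro _ ⟨m, rfl⟩ _ ⟨n, rfl⟩
      refine ⟨mk ((max m n : ℕ) : WithTop ℕ) (Sum.inl false), ⟨_, rfl⟩, ?_, ?_⟩
      · rw [hspec]
        exact ⟨(specC _ _).2 (WithTop.coe_le_coe.2 (le_max_left _ _)), (specY _ _).2 (Or.inl rfl)⟩
      · rw [hspec]
        exact ⟨(specC _ _).2 (WithTop.coe_le_coe.2 (le_max_right _ _)), (specY _ _).2 (Or.inl rfl)⟩
    have hsub : (⋂ d ∈ D, up d) ∩ up x ⊆ U := by
      rintro f ⟨hf1, hf2⟩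
      simp only [Set.mem_iInter] at hf1
      have h1 : ∀ n : ℕ, (n : WithTop ℕ) ≤ f false ∧
          @SpecLE _ topY (Sum.inl false) (f true) := by
        intro n
        have := (hspec _ _).1 (hf1 (mk (n : WithTop ℕ) (Sum.inl false)) ⟨n, rfl⟩)
        exact ⟨(specC _ _).1 this.1, this.2⟩
      have h2 : @SpecLE _ topY (Sum.inl true) (f true) := ((hspec _ _).1 hf2).2
      have h3 : ∃ k : ℕ, f true = Sum.inr k := by
        rcases (specY _ _).1 (h1 0).2 with h4 | ⟨_, h4⟩
        · rcases (specY _ _).1 h2 with h5 | ⟨_, h5⟩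
          · rw [← h4] at h5; cases h5
          · exact h5
        · exact h4
      obtain ⟨k, hk⟩ := h3
      exact Set.mem_iUnion.2 ⟨k, (h1 k).1, hk⟩
    obtain ⟨d, ⟨n, rfl⟩, hd⟩ := h D hD x U hU hsub
    have hbad : mk (n : WithTop ℕ) (Sum.inr (n + 1)) ∈ U := by
      apply hd
      refine ⟨?_, ?_⟩
      · exact (hspec _ _).2 ⟨(specC _ _).2 le_rfl,
          (specY _ _).2 (Or.inr ⟨⟨_, rfl⟩, ⟨_, rfl⟩⟩)⟩
      · exact (hspec _ _).2 ⟨(specC _ _).2 bot_le,
          (specY _ _).2 (Or.inr ⟨⟨_, rfl⟩, ⟨_, rfl⟩⟩)⟩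
    obtain ⟨k, hk1, hk2⟩ := Set.mem_iUnion.1 hbad
    have hk3 : n + 1 = k := by
      have : (Sum.inr (n + 1) : Bool ⊕ ℕ) = Sum.inr k := hk2
      exact Sum.inr_injective this
    have hk4 : (k : WithTop ℕ) ≤ (n : WithTop ℕ) := hk1
    have hk5 : k ≤ n := WithTop.coe_le_coe.1 hk4
    omega

end Pool.Agent.Results.MP_e2e219_gt.ProductNotStrongD
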